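import Pool.Agent.helper73.SPV.Asm

/-!
# Solvable subgroups of the rivals and of the thin subgroups of `SL(n, ℤ)`

Let `n ≥ 3` and let `Γ` be a finitely generated residually finite group with the same finite quotients as `SL(n, ℤ)`,
not isomorphic to `SL(n, ℤ)`, or a group isomorphic to a Zariski dense subgroup of infinite index of `SL(n, ℤ)`. Then every
solvable subgroup `P` of `Γ` has Hirsch length at most `n - 1`. More precisely, for every embedding of `Γ` in `SL(n, ℤ)` as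
a Zariski dense subgroup of infinite index (there is one) there is a vector of `ℤⁿ` whose stabiliser in `P` is a torsion
group, for the action on columns and for the action on rows. In the first case `Γ` is not a product of `n` virtually
solvable subgroups.
-/

set_option autoImplicit false

namespace Pool.Agent.Results.MP_a2a22c_al.SolvableProducts

open Matrix

/-- `K 0 ≤ K 1 ≤ ... ≤ K N ≤ P` is a series of subgroups, `K i` is normal in `K (i + 1)`, and the factor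
`K (i + 1) / K i` contains an element of infinite order, for all `i < N`. -/
structure Series {G : Type} [Group G] (P : Subgroup G) (N : ℕ) (K : ℕ → Subgroup G) : Prop where
  le : K N ≤ P
  mono : ∀ i < N, K i ≤ K (i + 1)
  normal : ∀ i < N, ∀ g ∈ K (i + 1), ∀ x ∈ K i, g * x * g⁻¹ ∈ K i
  infinite : ∀ i < N, ∃ g ∈ K (i + 1), ∀ j : ℕ, 1 ≤ j → g ^ j ∉ K i

/-- The Hirsch length of the group `P` is at most `B`: the series of `P` in the sense of `Series` have length at most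
`B`. -/
def HirschLe {G : Type} [Group G] (P : Subgroup G) (B : ℕ) : Prop :=
  ∀ (N : ℕ) (K : ℕ → Subgroup G), Series P N K → N ≤ B

/-- `H` is Zariski dense in `SL(n, ℤ)`: every integer polynomial in the matrix entries which vanishes on `H` vanishes on
`SL(n, ℤ)`. -/
def ZDense {n : ℕ} (H : Subgroup (SpecialLinearGroup (Fin n) ℤ)) : Prop :=
  ∀ F : MvPolynomial (Fin n × Fin n) ℤ,
    (∀ h ∈ H, MvPolynomial.eval (fun x : Fin n × Fin n => (h : Matrix (Fin n) (Fin n) ℤ) x.1 x.2) F = 0) →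
    ∀ g : SpecialLinearGroup (Fin n) ℤ,
      MvPolynomial.eval (fun x : Fin n × Fin n => (g : Matrix (Fin n) (Fin n) ℤ) x.1 x.2) F = 0

/-- `Γ` is finitely generated, residually finite, has the same finite quotients as `SL(n, ℤ)`, and is not isomorphic to
`SL(n, ℤ)`. -/
def Rival (n : ℕ) (Γ : Type) [Group Γ] : Prop :=
  Group.FG Γ ∧ (∀ g : Γ, g ≠ 1 → ∃ N : Subgroup Γ, N.index ≠ 0 ∧ g ∉ N) ∧
    (∀ (Q : Type) [Group Q] [Finite Q],
      (∃ f : Γ →* Q, Function.Surjective f) ↔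
      (∃ f : SpecialLinearGroup (Fin n) ℤ →* Q, Function.Surjective f)) ∧
    IsEmpty (Γ ≃* SpecialLinearGroup (Fin n) ℤ)

/-- The group `P` has a solvable subgroup of finite index. -/
def VSolv {G : Type} [Group G] (P : Subgroup G) : Prop :=
  ∃ S : Subgroup G, S ≤ P ∧ Group.IsSolvable S ∧ S.relIndex P ≠ 0

/-- `G = P 0 * P 1 * ... * P (k - 1)`: every element `g` of `G` is a product `a 0 * a 1 * ... * a (k - 1)` with `a i ∈ P i`. -/
def IsProd {G : Type} [Group G] (k : ℕ) (P : Fin k → Subgroup G) : Prop :=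
  ∀ g : G, ∃ a : Fin k → G, (∀ i, a i ∈ P i) ∧ g = (List.ofFn a).prod

/-- `φ` is injective and its image is Zariski dense and of infinite index. -/
def ThinEmb {n : ℕ} {Γ : Type} [Group Γ] (φ : Γ →* SpecialLinearGroup (Fin n) ℤ) : Prop :=
  Function.Injective φ ∧ ZDense φ.range ∧ φ.range.index = 0

theorem series_Hi {G : Type} [Group G] (K : ℕ → Subgroup G) (N : ℕ) (h1 : ∀ i < N, K i ≤ K (i + 1))
    (h2 : ∀ i < N, ∀ g ∈ K (i + 1), ∀ x ∈ K i, g * x * g⁻¹ ∈ K i)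
    (h3 : ∀ i < N, ∃ g ∈ K (i + 1), ∀ j : ℕ, 1 ≤ j → g ^ j ∉ K i) : Pool.Agent.SHL.Hi N (K N) := by
  induction N with
  | zero => trivial
  | succ N ih =>
    refine ⟨K N, K (N + 1), h1 N (by omega), le_refl _, h2 N (by omega), ?_,
      ih (fun i hi => h1 i (by omega)) (fun i hi => h2 i (by omega)) (fun i hi => h3 i (by omega))⟩
    obtain ⟨g, hg, hj⟩ := h3 N (by omega)
    exact ⟨g, hg, fun j hj' => hj j hj'⟩

theorem hi_of_series {G : Type} [Group G] {P : Subgroup G} {N : ℕ} {K : ℕ → Subgroup G} (h : Series P N K) :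
    Pool.Agent.SHL.Hi N P :=
  (Pool.Agent.SHL.HA G).1 N (K N) P h.le (series_Hi K N h.mono h.normal h.infinite)

theorem hi_mono {G : Type} [Group G] {P : Subgroup G} {N M : ℕ} (h : N ≤ M)
    (hM : Pool.Agent.SHL.Hi M P) : Pool.Agent.SHL.Hi N P := by
  induction M, h using Nat.le_induction with
  | base => exact hM
  | succ M _ ih => exact ih ((Pool.Agent.SHL.HA G).2.1 M P hM)

theorem dense_hirsch {n : ℕ} (hn : 3 ≤ n) {H P : Subgroup (SpecialLinearGroup (Fin n) ℤ)}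
    (hH : Pool.Agent.H48SL.ZDense H) (hi : ¬ H.FiniteIndex) (hP : P ≤ H) (hS : Group.IsSolvable P)
    (N : ℕ) (hN : Pool.Agent.SHL.Hi N P) : N ≤ n - 1 := by
  by_contra hc
  exact hi (Pool.Agent.BS.tSVB n hn H P hH hP hS (hi_mono (by omega) hN))

theorem dense_vector {n : ℕ} (hn : 3 ≤ n) {H P : Subgroup (SpecialLinearGroup (Fin n) ℤ)}
    (hH : Pool.Agent.H48SL.ZDense H) (hi : ¬ H.FiniteIndex) (hP : P ≤ H) (hS : Group.IsSolvable P) :
    ∃ v : Fin n → ℤ, ∀ g ∈ P, (g : Matrix (Fin n) (Fin n) ℤ) *ᵥ v = v → ∃ j : ℕ, 1 ≤ j ∧ g ^ j = 1 := by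
  have h1 : ¬ Pool.Agent.BS.PStar P := fun h => hi (Pool.Agent.BS.tTHB n hn H P hH hP hS h)
  unfold Pool.Agent.BS.PStar at h1
  push Not at h1
  obtain ⟨u, hu⟩ := h1
  obtain ⟨N, w, hN, hw⟩ := Pool.Agent.H48SL.clear_denom u
  refine ⟨w, fun g hg hgw => ?_⟩
  by_contra hc
  push Not at hc
  apply hu g hg (fun j hj => hc j hj)
  have hN' : (N : ℚ) ≠ 0 := by exact_mod_cast hN
  have h2 : Pool.Agent.UG.qg g *ᵥ ((N : ℚ) • u) = (N : ℚ) • u := by
    rw [← hw, Pool.Agent.UG.qg_mulVec_castV, hgw]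
  rw [mulVec_smul] at h2
  have h3 := congrArg (fun x => (N : ℚ)⁻¹ • x) h2
  simpa only [smul_smul, inv_mul_cancel₀ hN', one_smul] using h3

/-- `g ↦ (gᵀ)⁻¹` -/
def tInv (n : ℕ) : SpecialLinearGroup (Fin n) ℤ →* SpecialLinearGroup (Fin n) ℤ where
  toFun g := (SpecialLinearGroup.transpose g)⁻¹
  map_one' := by rw [Pool.Agent.NH.GVF_one, inv_one]
  map_mul' g h := by rw [Pool.Agent.NH.GVF_mul, _root_.mul_inv_rev]

theorem tInv_inj (n : ℕ) : Function.Injective (tInv n) := by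
  intro g h hgh
  have h1 : (SpecialLinearGroup.transpose g)⁻¹ = (SpecialLinearGroup.transpose h)⁻¹ := hgh
  have h2 := inv_injective h1
  rw [← Pool.Agent.NH.GVF_tt g, h2, Pool.Agent.NH.GVF_tt]

theorem dense_covector {n : ℕ} (hn : 3 ≤ n) {H P : Subgroup (SpecialLinearGroup (Fin n) ℤ)}
    (hH : Pool.Agent.H48SL.ZDense H) (hi : ¬ H.FiniteIndex) (hP : P ≤ H) (hS : Group.IsSolvable P) :
    ∃ v : Fin n → ℤ, ∀ g ∈ P, v ᵥ* (g : Matrix (Fin n) (Fin n) ℤ) = v → ∃ j : ℕ, 1 ≤ j ∧ g ^ j = 1 := by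
  obtain ⟨H', hD', hmem, hfin⟩ := Pool.Agent.UG.TRP n H hH
  have hPs : Group.IsSolvable (Pool.Agent.NH.GVF_tr P) := by
    have := hS
    let f : Pool.Agent.NH.GVF_tr P →* P :=
      { toFun := fun g => ⟨tInv n g.1, P.inv_mem g.2⟩
        map_one' := Subtype.ext (map_one (tInv n))
        map_mul' := fun g h => Subtype.ext (map_mul (tInv n) g.1 h.1) }
    refine Group.isSolvable_of_isSolvable_injective (f := f) ?_
    intro g h hgh
    have h1 := congrArg Subtype.val hgh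
    exact Subtype.ext (tInv_inj n h1)
  obtain ⟨v, hv⟩ := dense_vector hn hD' (fun h => hi (hfin h))
    (fun a ha => (hmem a).2 (hP ha) : Pool.Agent.NH.GVF_tr P ≤ H') hPs
  refine ⟨v, fun g hg hgv => ?_⟩
  have h1 : SpecialLinearGroup.transpose g ∈ Pool.Agent.NH.GVF_tr P := by
    show SpecialLinearGroup.transpose (SpecialLinearGroup.transpose g) ∈ P
    rw [Pool.Agent.NH.GVF_tt]
    exact hg
  have h2 : ((SpecialLinearGroup.transpose g : SpecialLinearGroup (Fin n) ℤ) : Matrix (Fin n) (Fin n) ℤ) *ᵥ v = v := by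
    show ((g : Matrix (Fin n) (Fin n) ℤ)ᵀ) *ᵥ v = v
    rw [mulVec_transpose]
    exact hgv
  obtain ⟨j, hj, hj'⟩ := hv _ h1 h2
  refine ⟨j, hj, ?_⟩
  apply tInv_inj n
  rw [map_pow, map_one]
  show ((SpecialLinearGroup.transpose g)⁻¹) ^ j = 1
  rw [inv_pow, hj', inv_one]

theorem rival_emb {n : ℕ} (hn : 3 ≤ n) {Γ : Type} [Group Γ] (h : Rival n Γ) :
    ∃ φ : Γ →* SpecialLinearGroup (Fin n) ℤ, ThinEmb φ ∧ Pool.Agent.H48SL.ProfDense φ.range := by
  obtain ⟨hfg, hrf, hq, hG⟩ := h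
  obtain ⟨H, hH, ⟨e⟩⟩ := Pool.Agent.UG.Abs_emb n hn Γ hfg hrf hq
  have hi : ¬ H.FiniteIndex := by
    intro hf
    have h1 : H = ⊤ := hH.eq_top hf
    subst h1
    exact hG.false (e.trans Subgroup.topEquiv)
  have hr : (H.subtype.comp e.toMonoidHom).range = H := by
    ext x
    constructor
    · rintro ⟨g, rfl⟩
      exact (e g).2
    · intro hx
      refine ⟨e.symm ⟨x, hx⟩, ?_⟩
      show ((e (e.symm ⟨x, hx⟩) : H) : SpecialLinearGroup (Fin n) ℤ) = x
      rw [e.apply_symm_apply]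
  refine ⟨H.subtype.comp e.toMonoidHom, ⟨Subtype.val_injective.comp e.injective, ?_, ?_⟩, ?_⟩
  · rw [hr]
    exact hH.zdense
  · rw [hr]
    by_contra h1
    exact hi ⟨h1⟩
  · rw [hr]
    exact hH

theorem rival_prod {n : ℕ} (hn : 3 ≤ n) {Γ : Type} [Group Γ] (h : Rival n Γ) (k : ℕ)
    (P : Fin k → Subgroup Γ) (hv : ∀ i, VSolv (P i)) (hp : IsProd k P) : n < k := by
  obtain ⟨φ, hφ, hD⟩ := rival_emb hn h
  have hi : ¬ φ.range.FiniteIndex := fun hf => hf.index_ne_zero hφ.2.2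
  refine Pool.Agent.SPV.tSPH n hn φ.range hD (fun S hS hs hN => hi (Pool.Agent.BS.tSVB n hn φ.range S hD.zdense hS hs hN))
    k (fun i => (P i).map φ) ?_ ?_ ?_
  · rintro i _ ⟨g, _, rfl⟩
    exact ⟨g, rfl⟩
  · intro i
    obtain ⟨S, h1, h2, h3⟩ := hv i
    refine ⟨S.map φ, Subgroup.map_mono h1, ?_, ?_⟩
    · let e' : S ≃* S.map φ := S.equivMapOfInjective φ hφ.1
      exact Group.isSolvable_of_surjective (f := e'.toMonoidHom) e'.surjective
    · rwa [Subgroup.relIndex_map_map_of_injective S (P i) hφ.1]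
  · rintro _ ⟨g, rfl⟩
    obtain ⟨a, ha, hg⟩ := hp g
    refine ⟨fun i => φ (a i), fun i => ⟨a i, ha i, rfl⟩, ?_⟩
    rw [hg, map_list_prod, List.map_ofFn]
    rfl

theorem result (n : ℕ) (hn : 3 ≤ n) (Γ : Type) [Group Γ]
    (h : Rival n Γ ∨ ∃ φ : Γ →* SpecialLinearGroup (Fin n) ℤ, ThinEmb φ) :
    (∃ φ : Γ →* SpecialLinearGroup (Fin n) ℤ, ThinEmb φ) ∧
    (∀ P : Subgroup Γ, Group.IsSolvable P → HirschLe P (n - 1) ∧
      ∀ φ : Γ →* SpecialLinearGroup (Fin n) ℤ, ThinEmb φ →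
        (∃ v : Fin n → ℤ, ∀ g ∈ P, (φ g : Matrix (Fin n) (Fin n) ℤ) *ᵥ v = v → ∃ j : ℕ, 1 ≤ j ∧ g ^ j = 1) ∧
        (∃ v : Fin n → ℤ, ∀ g ∈ P, v ᵥ* (φ g : Matrix (Fin n) (Fin n) ℤ) = v → ∃ j : ℕ, 1 ≤ j ∧ g ^ j = 1)) ∧
    (Rival n Γ → ∀ (k : ℕ) (P : Fin k → Subgroup Γ), (∀ i, VSolv (P i)) → IsProd k P → n < k) := by
  have hex : ∃ φ : Γ →* SpecialLinearGroup (Fin n) ℤ, ThinEmb φ := by
    rcases h with h | h
    · exact (rival_emb hn h).imp fun φ hφ => hφ.1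
    · exact h
  refine ⟨hex, fun P hS => ?_, fun h => rival_prod hn h⟩
  have main : ∀ φ : Γ →* SpecialLinearGroup (Fin n) ℤ, ThinEmb φ →
      ¬ φ.range.FiniteIndex ∧ Pool.Agent.H48SL.ZDense φ.range ∧ P.map φ ≤ φ.range ∧
        Group.IsSolvable (P.map φ) := by
    intro φ hφ
    refine ⟨fun hf => hf.index_ne_zero hφ.2.2, hφ.2.1, ?_, ?_⟩
    · rintro _ ⟨g, _, rfl⟩
      exact ⟨g, rfl⟩
    · let e' : P ≃* P.map φ := P.equivMapOfInjective φ hφ.1
      exact Group.isSolvable_of_surjective (f := e'.toMonoidHom) e'.surjective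
  constructor
  · obtain ⟨φ, hφ⟩ := hex
    obtain ⟨h1, h2, h3, h4⟩ := main φ hφ
    intro N K hK
    exact dense_hirsch hn h2 h1 h3 h4 N (Pool.Agent.NH.FLG_map φ hφ.1 N P (hi_of_series hK))
  · intro φ hφ
    obtain ⟨h1, h2, h3, h4⟩ := main φ hφ
    have tors : ∀ g : Γ, (∃ j : ℕ, 1 ≤ j ∧ (φ g) ^ j = 1) → ∃ j : ℕ, 1 ≤ j ∧ g ^ j = 1 := by
      rintro g ⟨j, hj, hj'⟩
      refine ⟨j, hj, hφ.1 ?_⟩
      rw [map_pow, hj', map_one]
    constructor
    · obtain ⟨v, hv⟩ := dense_vector hn h2 h1 h3 h4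
      exact ⟨v, fun g hg hgv => tors g (hv (φ g) ⟨g, hg, rfl⟩ hgv)⟩
    · obtain ⟨v, hv⟩ := dense_covector hn h2 h1 h3 h4
      exact ⟨v, fun g hg hgv => tors g (hv (φ g) ⟨g, hg, rfl⟩ hgv)⟩

end Pool.Agent.Results.MP_a2a22c_al.SolvableProducts
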